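import Pool.Agent.Helper29.AR.Props
import Pool.Agent.Helper90.SR.Core

/-!
# MP_b55b7c_an, packet AR-CoreL: many elements at once, with losses
-/

open scoped ENNReal NNReal InnerProductSpace ComplexOrder
open Filter Topology

attribute [-instance] CStarMatrix.instAlgebra CStarMatrix.instModule CStarMatrix.instSMul
  CStarMatrix.instMulAction CStarMatrix.instDistribMulAction

noncomputable section
namespace RC
universe u

namespace H12CoreL

variable {M : Type u} [CStarAlgebra M] [PartialOrder M] [StarOrderedRing M]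

theorem belL_mono {ε d d' : ℝ} {v w L : M} (hd : d' ≤ d) (h : BelL ε d v w L) :
    BelL ε d' v w L := by
  unfold BelL at h ⊢
  refine le_trans ?_ h
  have h1 : 0 ≤ (d - d') • (cut (sq v) ε * cut (sq v) ε) :=
    smul_nonneg (sub_nonneg.2 hd) (H90Core.ff_nonneg _ _)
  rw [sub_smul] at h1
  exact sub_nonneg.1 h1

theorem belL_pert {ε d κ : ℝ} {v V V₀ L : M} (hd : 0 < d) (hκ : ‖V - V₀‖ ≤ κ)
    (hk : κ ^ 2 = d / 4) (hL : 0 ≤ L) (h : BelL ε d v V₀ L) : BelL ε (d / 4) v V L := by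
  unfold BelL at h ⊢
  set F := cut (sq v) ε with hFdef
  have hF : star F = F := H90Core.cut_star _ _
  have hFL : 0 ≤ F * L * F := by
    have := star_left_conjugate_nonneg hL F
    rwa [hF] at this
  have h0 := H90Core.sq_pert F V V₀ hF hκ
  rw [hk] at h0
  have h1 : d • (F * F) ≤ (2 : ℝ) • (F * (sq V + L) * F) + (2 * (d / 4)) • (F * F) := by
    refine h.trans ?_
    have e1 : F * (sq V₀ + L) * F = F * sq V₀ * F + F * L * F := by
      rw [mul_add, add_mul]
    have e2 : (2 : ℝ) • (F * (sq V + L) * F) + (2 * (d / 4)) • (F * F)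
        = ((2 : ℝ) • (F * sq V * F) + (2 * (d / 4)) • (F * F)) + (F * L * F + F * L * F) := by
      rw [mul_add, add_mul, smul_add, two_smul ℝ (F * L * F)]
      abel
    rw [e1, e2]
    refine add_le_add h0 ?_
    exact le_add_of_nonneg_left hFL
  have h2 : (0 : M) ≤ (1 / 2 : ℝ) • ((2 : ℝ) • (F * (sq V + L) * F) + (2 * (d / 4)) • (F * F)
      - d • (F * F)) := smul_nonneg (by norm_num) (sub_nonneg.2 h1)
  rw [← sub_nonneg]
  refine h2.trans_eq ?_
  rw [smul_sub, smul_add, smul_smul, smul_smul, smul_smul]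
  have e1 : (1 / 2 : ℝ) * 2 = 1 := by norm_num
  have e2 : (1 / 2 * (2 * (d / 4)) - 1 / 2 * d : ℝ) = -(d / 4) := by ring
  rw [e1, one_smul, add_sub_assoc, ← sub_smul, e2, neg_smul, ← sub_eq_add_neg]

end H12CoreL

open H12CoreL in
/-- Packet AR-CoreL. -/
theorem coreLP (step : CoreStepLP.{u}) : CoreLP.{u} := by
  intro M _ _ _ hS a b ε θ hε hθ n
  induction n with
  | zero =>
    intro X
    exact ⟨0, 1, fun i => i.elim0, one_pos, fun i => i.elim0⟩
  | succ n ih =>
    intro X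
    obtain ⟨Y0, d0, L0, hd0, hY0⟩ := ih (fun i => X i.succ)
    have hκ : 0 < Real.sqrt d0 / 2 := by positivity
    obtain ⟨Y, L, d1, hd1, hL, hLs, hc, hB⟩ :=
      step M hS a b Y0 (X 0) ε (Real.sqrt d0 / 2) θ hε hκ hθ
    refine ⟨Y, min d1 (d0 / 4), Fin.cons L L0, lt_min hd1 (by positivity), fun i => ?_⟩
    refine Fin.cases ?_ (fun j => ?_) i
    · rw [Fin.cons_zero]
      exact ⟨hL, hLs, belL_mono (min_le_left _ _) hB⟩
    · rw [Fin.cons_succ]
      obtain ⟨h1, h2, h3⟩ := hY0 j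
      refine ⟨h1, h2, belL_mono (min_le_right _ _) (belL_pert hd0 hc ?_ h1 h3)⟩
      rw [div_pow, Real.sq_sqrt hd0.le]
      norm_num

end RC
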